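import Mathlib

/-!
# Centrally symmetric convex subsets of a tetrahedron (second half of S12659)

Every convex centrally symmetric subset of a tetrahedron has at most half of its volume.
-/

set_option autoImplicit false

open MeasureTheory Set
open scoped Pointwise

namespace Pool.OR.Tetra

/-- Euclidean three-space. -/
abbrev E3 : Type := EuclideanSpace ℝ (Fin 3)

/-! ## Real inequalities -/

theorem abs_cube_ineq (x y z : ℝ) (h0 : 0 ≤ 1 + x + y + z) (h1 : 0 ≤ 1 + x - y - z) (h2 : 0 ≤ 1 - x + y - z)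
    (h3 : 0 ≤ 1 - x - y + z) :
    |x| ^ 3 + |y| ^ 3 + |z| ^ 3 ≤ 3 / 2 * (x ^ 2 + y ^ 2 + z ^ 2) + 3 * (x * y * z) := by
  have hx : |x| ≤ 1 := by rw [abs_le]; constructor <;> linarith
  have hy : |y| ≤ 1 := by rw [abs_le]; constructor <;> linarith
  have hz : |z| ≤ 1 := by rw [abs_le]; constructor <;> linarith
  have key : ∀ a : ℝ, |a| ≤ 1 → |a| ^ 3 ≤ a ^ 2 := by
    intro a ha
    have h := mul_le_mul_of_nonneg_right ha (sq_nonneg |a|)
    rw [one_mul] at h
    calc |a| ^ 3 = |a| * |a| ^ 2 := by ring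
      _ ≤ |a| ^ 2 := h
      _ = a ^ 2 := sq_abs a
  have kx := key x hx
  have ky := key y hy
  have kz := key z hz
  by_cases hxyz : 0 ≤ x * y * z
  · nlinarith [sq_nonneg x, sq_nonneg y, sq_nonneg z]
  · push Not at hxyz
    have hs : |x| + |y| + |z| ≤ 1 := by
      rcases le_total 0 x with hx0 | hx0 <;> rcases le_total 0 y with hy0 | hy0 <;>
        rcases le_total 0 z with hz0 | hz0
      · exact absurd hxyz (not_lt.2 (by positivity))
      · rw [abs_of_nonneg hx0, abs_of_nonneg hy0, abs_of_nonpos hz0]; linarith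
      · rw [abs_of_nonneg hx0, abs_of_nonpos hy0, abs_of_nonneg hz0]; linarith
      · exact absurd hxyz (not_lt.2 (by
          have := mul_nonneg_of_nonpos_of_nonpos hy0 hz0
          nlinarith [mul_nonneg hx0 this]))
      · rw [abs_of_nonpos hx0, abs_of_nonneg hy0, abs_of_nonneg hz0]; linarith
      · exact absurd hxyz (not_lt.2 (by
          have := mul_nonneg_of_nonpos_of_nonpos hx0 hz0
          nlinarith [mul_nonneg hy0 this]))
      · exact absurd hxyz (not_lt.2 (by
          have := mul_nonneg_of_nonpos_of_nonpos hx0 hy0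
          nlinarith [mul_nonneg hz0 this]))
      · rw [abs_of_nonpos hx0, abs_of_nonpos hy0, abs_of_nonpos hz0]; linarith
    have habs : |x * y * z| = |x| * |y| * |z| := by rw [abs_mul, abs_mul]
    have hneg : x * y * z = -(|x| * |y| * |z|) := by
      rw [← habs, abs_of_neg hxyz, neg_neg]
    have ha := abs_nonneg x
    have hb := abs_nonneg y
    have hc := abs_nonneg z
    have e1 : x ^ 2 = |x| ^ 2 := (sq_abs x).symm
    have e2 : y ^ 2 = |y| ^ 2 := (sq_abs y).symm
    have e3 : z ^ 2 = |z| ^ 2 := (sq_abs z).symm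
    rw [hneg, e1, e2, e3]
    generalize |x| = a at *
    generalize |y| = b at *
    generalize |z| = c at *
    have h4 : a ^ 3 + b ^ 3 + c ^ 3 + 3 * (a * b * c) ≤ (a + b + c) * (a ^ 2 + b ^ 2 + c ^ 2) := by
      nlinarith [mul_nonneg ha (sq_nonneg (b - c)), mul_nonneg hb (sq_nonneg (a - c)),
        mul_nonneg hc (sq_nonneg (a - b)), mul_nonneg (mul_nonneg ha hb) hc]
    have h5 : (a + b + c) * (a ^ 2 + b ^ 2 + c ^ 2) ≤ 1 * (a ^ 2 + b ^ 2 + c ^ 2) :=
      mul_le_mul_of_nonneg_right hs (by positivity)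
    nlinarith [sq_nonneg a, sq_nonneg b, sq_nonneg c]

/-- positive part -/
noncomputable def pp (x : ℝ) : ℝ := max 0 x

theorem pp_cube (x : ℝ) : pp x ^ 3 + pp (-x) ^ 3 = |x| ^ 3 := by
  unfold pp
  rcases le_total 0 x with h | h
  · rw [max_eq_right h, max_eq_left (by linarith), abs_of_nonneg h]; ring
  · rw [max_eq_left h, max_eq_right (by linarith), abs_of_nonpos h]; ring

theorem real_ineq (a b c d : ℝ) (hs : a + b + c + d = 1) (ha : a ≤ 1 / 2) (hb : b ≤ 1 / 2)
    (hc : c ≤ 1 / 2) (hd : d ≤ 1 / 2) :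
    1 / 2 + (pp (1 - 2 * a - 2 * b) ^ 3 + pp (1 - 2 * a - 2 * c) ^ 3 + pp (1 - 2 * a - 2 * d) ^ 3 +
      pp (1 - 2 * b - 2 * c) ^ 3 + pp (1 - 2 * b - 2 * d) ^ 3 + pp (1 - 2 * c - 2 * d) ^ 3) ≤
      (1 - 2 * a) ^ 3 + (1 - 2 * b) ^ 3 + (1 - 2 * c) ^ 3 + (1 - 2 * d) ^ 3 := by
  have e1 : 1 - 2 * c - 2 * d = -(1 - 2 * a - 2 * b) := by linarith
  have e2 : 1 - 2 * b - 2 * d = -(1 - 2 * a - 2 * c) := by linarith
  have e3 : 1 - 2 * b - 2 * c = -(1 - 2 * a - 2 * d) := by linarith
  rw [e1, e2, e3]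
  have p1 := pp_cube (1 - 2 * a - 2 * b)
  have p2 := pp_cube (1 - 2 * a - 2 * c)
  have p3 := pp_cube (1 - 2 * a - 2 * d)
  have key := abs_cube_ineq (1 - 2 * a - 2 * b) (1 - 2 * a - 2 * c) (1 - 2 * a - 2 * d)
    (by linarith) (by linarith) (by linarith) (by linarith)
  have hd' : d = 1 - a - b - c := by linarith
  subst hd'
  nlinarith [key, p1, p2, p3]

/-! ## Measure lemmas -/

theorem four_union {α : Type} [MeasurableSpace α] (μ : Measure α) (A B C D : Set α) (hB : MeasurableSet B)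
    (hC : MeasurableSet C) (hD : MeasurableSet D) :
    μ A + μ B + μ C + μ D ≤ μ (A ∪ B ∪ C ∪ D) + (μ (A ∩ B) + μ (A ∩ C) + μ (A ∩ D) + μ (B ∩ C) +
      μ (B ∩ D) + μ (C ∩ D)) := by
  have h1 := measure_union_add_inter (μ := μ) A hB
  have h2 := measure_union_add_inter (μ := μ) (A ∪ B) hC
  have h3 := measure_union_add_inter (μ := μ) (A ∪ B ∪ C) hD
  have h4 : μ ((A ∪ B) ∩ C) ≤ μ (A ∩ C) + μ (B ∩ C) := by
    rw [union_inter_distrib_right]; exact measure_union_le _ _
  have h5 : μ ((A ∪ B ∪ C) ∩ D) ≤ μ (A ∩ D) + μ (B ∩ D) + μ (C ∩ D) := by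
    rw [union_inter_distrib_right, union_inter_distrib_right]
    exact (measure_union_le _ _).trans (add_le_add (measure_union_le _ _) le_rfl)
  calc μ A + μ B + μ C + μ D = (μ (A ∪ B) + μ (A ∩ B)) + μ C + μ D := by rw [h1]
    _ = (μ (A ∪ B) + μ C) + μ D + μ (A ∩ B) := by ring
    _ = (μ (A ∪ B ∪ C) + μ ((A ∪ B) ∩ C)) + μ D + μ (A ∩ B) := by rw [h2]
    _ = (μ (A ∪ B ∪ C) + μ D) + μ ((A ∪ B) ∩ C) + μ (A ∩ B) := by ring
    _ = (μ (A ∪ B ∪ C ∪ D) + μ ((A ∪ B ∪ C) ∩ D)) + μ ((A ∪ B) ∩ C) + μ (A ∩ B) := by rw [h3]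
    _ ≤ (μ (A ∪ B ∪ C ∪ D) + (μ (A ∩ D) + μ (B ∩ D) + μ (C ∩ D))) + (μ (A ∩ C) + μ (B ∩ C)) + μ (A ∩ B) := by
        gcongr
    _ = _ := by ring

/-! ## The tetrahedron -/

section
variable (b : AffineBasis (Fin 4) ℝ E3)

/-- the tetrahedron -/
def T : Set E3 := {x | ∀ i, 0 ≤ b.coord i x}

theorem coord_cont (i : Fin 4) : Continuous (b.coord i) := (b.coord i).continuous_of_finiteDimensional

theorem coord_smul_add (i : Fin 4) (r : ℝ) (x v : E3) :
    b.coord i (r • x + v) = r * b.coord i x + b.coord i v - r * b.coord i 0 := by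
  have h : ∀ y : E3, b.coord i y = (b.coord i).linear y + b.coord i 0 := by
    intro y
    have := congrFun (b.coord i).decomp y
    simpa using this
  rw [h (r • x + v), h x, h v, map_add, map_smul, smul_eq_mul]
  ring

theorem coord_comb (i : Fin 4) (r s t : ℝ) (x y z : E3) (h : r + s + t = 1) :
    b.coord i (r • x + (s • y + t • z)) = r * b.coord i x + s * b.coord i y + t * b.coord i z := by
  have h1 := coord_smul_add b i r x (s • y + t • z)
  have h2 := coord_smul_add b i s y (t • z)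
  have h3 := coord_smul_add b i t z 0
  rw [add_zero] at h3
  rw [h1, h2, h3]
  have : t = 1 - r - s := by linarith
  subst this
  ring

theorem sum_coord (x : E3) : b.coord 0 x + b.coord 1 x + b.coord 2 x + b.coord 3 x = 1 := by
  have := b.sum_coord_apply_eq_one x
  rwa [Fin.sum_univ_four] at this

theorem meas_T : MeasurableSet (T b) := by
  have : T b = ⋂ i, {x | 0 ≤ b.coord i x} := by
    ext x; simp [T]
  rw [this]
  exact MeasurableSet.iInter fun i => (isClosed_le continuous_const (coord_cont b i)).measurableSet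

/-- the part of the tetrahedron where the `i`-th coordinate is at least `t` -/
def A (i : Fin 4) (t : ℝ) : Set E3 := T b ∩ {x | t ≤ b.coord i x}

theorem meas_A (i : Fin 4) (t : ℝ) : MeasurableSet (A b i t) :=
  (meas_T b).inter (isClosed_le continuous_const (coord_cont b i)).measurableSet

theorem volume_image (S : Set E3) (r : ℝ) (hr : 0 ≤ r) (v : E3) :
    volume ((fun y : E3 => r • y + v) '' S) = ENNReal.ofReal (r ^ 3) * volume S := by
  have h1 : (fun y : E3 => r • y + v) '' S = (fun y => y + v) '' (r • S) := by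
    rw [← image_smul, image_image]
  rw [h1, image_add_right, measure_preimage_add_right, Measure.addHaar_smul, finrank_euclideanSpace_fin,
    abs_of_nonneg (by positivity)]

theorem coord_self (i : Fin 4) : b.coord i (b i) = 1 := b.coord_apply_eq i

theorem coord_ne {i j : Fin 4} (h : i ≠ j) : b.coord i (b j) = 0 := b.coord_apply_ne h

/-- lower bound for the volume of a corner -/
theorem volume_A_ge (i : Fin 4) (t : ℝ) (h0 : 0 ≤ t) (h1 : t ≤ 1) :
    ENNReal.ofReal ((1 - t) ^ 3) * volume (T b) ≤ volume (A b i t) := by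
  rw [← volume_image (T b) (1 - t) (by linarith) (t • b i)]
  apply measure_mono
  rintro _ ⟨x, hx, rfl⟩
  have key : ∀ k, b.coord k ((1 - t) • x + t • b i) = (1 - t) * b.coord k x + t * b.coord k (b i) := by
    intro k
    have := coord_comb b k (1 - t) t 0 x (b i) (b i) (by ring)
    simpa using this
  constructor
  · intro k
    show 0 ≤ b.coord k ((1 - t) • x + t • b i)
    rw [key]
    have h2 : 0 ≤ b.coord k (b i) := by
      by_cases hk : k = i
      · rw [hk, coord_self]; norm_num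
      · rw [coord_ne b hk]
    have := hx k
    have := mul_nonneg (sub_nonneg.2 h1) this
    have := mul_nonneg h0 h2
    linarith
  · show t ≤ b.coord i ((1 - t) • x + t • b i)
    rw [key, coord_self]
    have := mul_nonneg (sub_nonneg.2 h1) (hx i)
    linarith

theorem volume_level (i : Fin 4) (t : ℝ) : volume {x : E3 | b.coord i x = t} = 0 := by
  let s : AffineSubspace ℝ E3 := AffineSubspace.comap (b.coord i) (AffineSubspace.mk' t ⊥)
  have hs : (s : Set E3) = {x : E3 | b.coord i x = t} := by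
    ext x
    simp only [s, AffineSubspace.coe_comap, mem_preimage, SetLike.mem_coe, AffineSubspace.mem_mk',
      mem_ofPred_eq, Submodule.mem_bot, vsub_eq_sub, sub_eq_zero]
  rw [← hs]
  apply Measure.addHaar_affineSubspace
  intro htop
  have h1 : ∀ x : E3, b.coord i x = t := by
    intro x
    have : x ∈ (s : Set E3) := by rw [htop]; trivial
    rw [hs] at this
    exact this
  have h2 := h1 (b i)
  have h3 : ∃ j : Fin 4, i ≠ j := by
    fin_cases i
    · exact ⟨1, by decide⟩
    · exact ⟨0, by decide⟩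
    · exact ⟨0, by decide⟩
    · exact ⟨0, by decide⟩
  obtain ⟨j, hj⟩ := h3
  have h4 := h1 (b j)
  rw [coord_self] at h2
  rw [coord_ne b hj] at h4
  linarith

/-- upper bound for the volume of an edge region -/
theorem volume_AA_le (i j : Fin 4) (hij : i ≠ j) (s t : ℝ) :
    volume (A b i s ∩ A b j t) ≤ ENNReal.ofReal (pp (1 - s - t) ^ 3) * volume (T b) := by
  by_cases h : s + t < 1
  · have hr : 0 < 1 - s - t := by linarith
    have hpp : pp (1 - s - t) = 1 - s - t := max_eq_right hr.le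
    rw [hpp, ← volume_image (T b) (1 - s - t) hr.le (s • b i + t • b j)]
    apply measure_mono
    rintro x ⟨⟨hx, hxi⟩, ⟨_, hxj⟩⟩
    have hxi' : s ≤ b.coord i x := hxi
    have hxj' : t ≤ b.coord j x := hxj
    refine ⟨(1 / (1 - s - t)) • x + ((-s / (1 - s - t)) • b i + (-t / (1 - s - t)) • b j), ?_, ?_⟩
    · intro k
      show 0 ≤ b.coord k _
      rw [coord_comb b k _ _ _ _ _ _ (by field_simp; ring)]
      have hk : 1 / (1 - s - t) * b.coord k x + -s / (1 - s - t) * b.coord k (b i) +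
          -t / (1 - s - t) * b.coord k (b j) =
          (b.coord k x - s * b.coord k (b i) - t * b.coord k (b j)) / (1 - s - t) := by
        field_simp; ring
      rw [hk]
      apply div_nonneg _ hr.le
      by_cases hki : k = i
      · subst hki
        rw [coord_self, coord_ne b hij]; linarith
      · by_cases hkj : k = j
        · subst hkj
          rw [coord_self, coord_ne b hki]; linarith
        · rw [coord_ne b hki, coord_ne b hkj]
          have := hx k
          linarith
    · show (1 - s - t) • ((1 / (1 - s - t)) • x + ((-s / (1 - s - t)) • b i + (-t / (1 - s - t)) • b j)) +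
        (s • b i + t • b j) = x
      have hne : (1 - s - t) ≠ 0 := hr.ne'
      rw [smul_add, smul_add, smul_smul, smul_smul, smul_smul]
      have e1 : (1 - s - t) * (1 / (1 - s - t)) = 1 := by field_simp
      have e2 : (1 - s - t) * (-s / (1 - s - t)) = -s := by field_simp
      have e3 : (1 - s - t) * (-t / (1 - s - t)) = -t := by field_simp
      rw [e1, e2, e3, one_smul, neg_smul, neg_smul]
      abel
  · have h0 : volume (A b i s ∩ A b j t) = 0 := by
      apply measure_mono_null _ (volume_level b i s)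
      rintro x ⟨⟨hx, hxi⟩, ⟨_, hxj⟩⟩
      have hxi' : s ≤ b.coord i x := hxi
      have hxj' : t ≤ b.coord j x := hxj
      have hsum : b.coord i x + b.coord j x ≤ 1 := by
        have h4 := b.sum_coord_apply_eq_one x
        have h5 : b.coord i x + b.coord j x ≤ ∑ k, b.coord k x := by
          rw [← Finset.sum_pair hij (f := fun k => b.coord k x)]
          exact Finset.sum_le_sum_of_subset_of_nonneg (Finset.subset_univ _) (fun k _ _ => hx k)
        linarith
      show b.coord i x = s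
      linarith
    rw [h0]
    exact zero_le

theorem T_eq : T b = convexHull ℝ (range b) := by
  rw [b.convexHull_eq_nonneg_coord]; rfl

theorem volume_T_lt : volume (T b) < ⊤ := by
  rw [T_eq]
  exact ((finite_range b).isCompact_convexHull ℝ).measure_lt_top

/-- the intersection with the reflected tetrahedron -/
def DD (c : E3) : Set E3 := T b ∩ {x | ∀ i, b.coord i x ≤ 2 * b.coord i c}

theorem meas_DD (c : E3) : MeasurableSet (DD b c) := by
  have : DD b c = T b ∩ ⋂ i, {x | b.coord i x ≤ 2 * b.coord i c} := by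
    ext x; simp [DD]
  rw [this]
  exact (meas_T b).inter
    (MeasurableSet.iInter fun i => (isClosed_le (coord_cont b i) continuous_const).measurableSet)

theorem DD_inter_A (c : E3) (i : Fin 4) : volume (DD b c ∩ A b i (2 * b.coord i c)) = 0 := by
  apply measure_mono_null _ (volume_level b i (2 * b.coord i c))
  rintro x ⟨⟨_, hx⟩, ⟨_, hx'⟩⟩
  exact le_antisymm (hx i) hx'

theorem A_sub (i : Fin 4) (t : ℝ) : A b i t ⊆ T b := inter_subset_left

theorem concl {V v : ENNReal} (hV : V < ⊤) {L P : ℝ} (hP : 0 ≤ P) (hL : 1 / 2 + P ≤ L)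
    (h : v + ENNReal.ofReal L * V ≤ V + ENNReal.ofReal P * V) : 2 * v ≤ V := by
  have h1 : ENNReal.ofReal (1 / 2 + P) * V ≤ ENNReal.ofReal L * V := by
    gcongr
  have h2 : v + (ENNReal.ofReal (1 / 2) * V + ENNReal.ofReal P * V) ≤ V + ENNReal.ofReal P * V := by
    rw [← add_mul, ← ENNReal.ofReal_add (by norm_num) hP]
    exact (add_le_add le_rfl h1).trans h
  rw [← add_assoc] at h2
  have h3 : v + ENNReal.ofReal (1 / 2) * V ≤ V := by
    have hfin : ENNReal.ofReal P * V ≠ ⊤ := ENNReal.mul_ne_top ENNReal.ofReal_ne_top hV.ne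
    exact (ENNReal.add_le_add_iff_right hfin).1 h2
  have hhalf : ENNReal.ofReal (1 / 2) * V + ENNReal.ofReal (1 / 2) * V = V := by
    rw [← add_mul, ← ENNReal.ofReal_add (by norm_num) (by norm_num)]
    norm_num
  have hfin2 : ENNReal.ofReal (1 / 2) * V ≠ ⊤ := ENNReal.mul_ne_top ENNReal.ofReal_ne_top hV.ne
  have h4 : v ≤ ENNReal.ofReal (1 / 2) * V := by
    rw [← ENNReal.add_le_add_iff_right hfin2, hhalf]
    exact h3
  calc 2 * v = v + v := two_mul v
    _ ≤ ENNReal.ofReal (1 / 2) * V + ENNReal.ofReal (1 / 2) * V := add_le_add h4 h4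
    _ = V := hhalf

theorem DD_add (c : E3) (U : Set E3) (hU : U ⊆ T b) (hUm : MeasurableSet U)
    (h0 : volume (DD b c ∩ U) = 0) : volume (DD b c) + volume U ≤ volume (T b) := by
  rw [← measure_union_add_inter (DD b c) hUm, h0, add_zero]
  exact measure_mono (union_subset inter_subset_left hU)

theorem case_four (c : E3) (hn : ∀ i, 0 ≤ b.coord i c) (hh : ∀ i, b.coord i c ≤ 1 / 2) :
    2 * volume (DD b c) ≤ volume (T b) := by
  have hsum := sum_coord b c
  set c0 := b.coord 0 c with hc0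
  set c1 := b.coord 1 c with hc1
  set c2 := b.coord 2 c with hc2
  set c3 := b.coord 3 c with hc3
  have n0 := hn 0
  have n1 := hn 1
  have n2 := hn 2
  have n3 := hn 3
  have m0 := hh 0
  have m1 := hh 1
  have m2 := hh 2
  have m3 := hh 3
  rw [← hc0] at n0 m0
  rw [← hc1] at n1 m1
  rw [← hc2] at n2 m2
  rw [← hc3] at n3 m3
  have key := real_ineq c0 c1 c2 c3 hsum m0 m1 m2 m3
  have hpp : ∀ x : ℝ, 0 ≤ pp x ^ 3 := fun x => pow_nonneg (le_max_left _ _) 3
  refine concl (volume_T_lt b) (P := pp (1 - 2 * c0 - 2 * c1) ^ 3 + pp (1 - 2 * c0 - 2 * c2) ^ 3 +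
    pp (1 - 2 * c0 - 2 * c3) ^ 3 + pp (1 - 2 * c1 - 2 * c2) ^ 3 + pp (1 - 2 * c1 - 2 * c3) ^ 3 +
    pp (1 - 2 * c2 - 2 * c3) ^ 3) ?_ key ?_
  · have := hpp (1 - 2 * c0 - 2 * c1)
    have := hpp (1 - 2 * c0 - 2 * c2)
    have := hpp (1 - 2 * c0 - 2 * c3)
    have := hpp (1 - 2 * c1 - 2 * c2)
    have := hpp (1 - 2 * c1 - 2 * c3)
    have := hpp (1 - 2 * c2 - 2 * c3)
    linarith
  have u0 := volume_A_ge b 0 (2 * c0) (by linarith) (by linarith)
  have u1 := volume_A_ge b 1 (2 * c1) (by linarith) (by linarith)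
  have u2 := volume_A_ge b 2 (2 * c2) (by linarith) (by linarith)
  have u3 := volume_A_ge b 3 (2 * c3) (by linarith) (by linarith)
  have w01 := volume_AA_le b 0 1 (by decide) (2 * c0) (2 * c1)
  have w02 := volume_AA_le b 0 2 (by decide) (2 * c0) (2 * c2)
  have w03 := volume_AA_le b 0 3 (by decide) (2 * c0) (2 * c3)
  have w12 := volume_AA_le b 1 2 (by decide) (2 * c1) (2 * c2)
  have w13 := volume_AA_le b 1 3 (by decide) (2 * c1) (2 * c3)
  have w23 := volume_AA_le b 2 3 (by decide) (2 * c2) (2 * c3)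
  have hun := four_union volume (A b 0 (2 * c0)) (A b 1 (2 * c1)) (A b 2 (2 * c2)) (A b 3 (2 * c3))
    (meas_A b _ _) (meas_A b _ _) (meas_A b _ _)
  have hD := DD_add b c (A b 0 (2 * c0) ∪ A b 1 (2 * c1) ∪ A b 2 (2 * c2) ∪ A b 3 (2 * c3))
    (union_subset (union_subset (union_subset (A_sub b _ _) (A_sub b _ _)) (A_sub b _ _)) (A_sub b _ _))
    ((((meas_A b _ _).union (meas_A b _ _)).union (meas_A b _ _)).union (meas_A b _ _)) (by
      rw [inter_union_distrib_left, inter_union_distrib_left, inter_union_distrib_left]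
      refine measure_union_null (measure_union_null (measure_union_null ?_ ?_) ?_) ?_
      · exact DD_inter_A b c 0
      · exact DD_inter_A b c 1
      · exact DD_inter_A b c 2
      · exact DD_inter_A b c 3)
  have e0 : 0 ≤ (1 - 2 * c0) ^ 3 := pow_nonneg (by linarith) 3
  have e1 : 0 ≤ (1 - 2 * c1) ^ 3 := pow_nonneg (by linarith) 3
  have e2 : 0 ≤ (1 - 2 * c2) ^ 3 := pow_nonneg (by linarith) 3
  have e3 : 0 ≤ (1 - 2 * c3) ^ 3 := pow_nonneg (by linarith) 3
  rw [ENNReal.ofReal_add (by positivity) e3, ENNReal.ofReal_add (by positivity) e2, ENNReal.ofReal_add e0 e1,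
    add_mul, add_mul, add_mul]
  rw [ENNReal.ofReal_add (by have := hpp (1 - 2 * c0 - 2 * c1); have := hpp (1 - 2 * c0 - 2 * c2)
                             have := hpp (1 - 2 * c0 - 2 * c3); have := hpp (1 - 2 * c1 - 2 * c2)
                             have := hpp (1 - 2 * c1 - 2 * c3); linarith) (hpp _),
    ENNReal.ofReal_add (by have := hpp (1 - 2 * c0 - 2 * c1); have := hpp (1 - 2 * c0 - 2 * c2)
                           have := hpp (1 - 2 * c0 - 2 * c3); have := hpp (1 - 2 * c1 - 2 * c2)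
                           linarith) (hpp _),
    ENNReal.ofReal_add (by have := hpp (1 - 2 * c0 - 2 * c1); have := hpp (1 - 2 * c0 - 2 * c2)
                           have := hpp (1 - 2 * c0 - 2 * c3); linarith) (hpp _),
    ENNReal.ofReal_add (by have := hpp (1 - 2 * c0 - 2 * c1); have := hpp (1 - 2 * c0 - 2 * c2)
                           linarith) (hpp _),
    ENNReal.ofReal_add (hpp _) (hpp _), add_mul, add_mul, add_mul, add_mul, add_mul]
  calc volume (DD b c) + (ENNReal.ofReal ((1 - 2 * c0) ^ 3) * volume (T b) +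
        ENNReal.ofReal ((1 - 2 * c1) ^ 3) * volume (T b) + ENNReal.ofReal ((1 - 2 * c2) ^ 3) * volume (T b) +
        ENNReal.ofReal ((1 - 2 * c3) ^ 3) * volume (T b))
      ≤ volume (DD b c) + (volume (A b 0 (2 * c0)) + volume (A b 1 (2 * c1)) + volume (A b 2 (2 * c2)) +
        volume (A b 3 (2 * c3))) := by gcongr
    _ ≤ volume (DD b c) + (volume (A b 0 (2 * c0) ∪ A b 1 (2 * c1) ∪ A b 2 (2 * c2) ∪ A b 3 (2 * c3)) +
        (volume (A b 0 (2 * c0) ∩ A b 1 (2 * c1)) + volume (A b 0 (2 * c0) ∩ A b 2 (2 * c2)) +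
         volume (A b 0 (2 * c0) ∩ A b 3 (2 * c3)) + volume (A b 1 (2 * c1) ∩ A b 2 (2 * c2)) +
         volume (A b 1 (2 * c1) ∩ A b 3 (2 * c3)) + volume (A b 2 (2 * c2) ∩ A b 3 (2 * c3)))) :=
        add_le_add le_rfl hun
    _ = (volume (DD b c) + volume (A b 0 (2 * c0) ∪ A b 1 (2 * c1) ∪ A b 2 (2 * c2) ∪ A b 3 (2 * c3))) +
        (volume (A b 0 (2 * c0) ∩ A b 1 (2 * c1)) + volume (A b 0 (2 * c0) ∩ A b 2 (2 * c2)) +
         volume (A b 0 (2 * c0) ∩ A b 3 (2 * c3)) + volume (A b 1 (2 * c1) ∩ A b 2 (2 * c2)) +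
         volume (A b 1 (2 * c1) ∩ A b 3 (2 * c3)) + volume (A b 2 (2 * c2) ∩ A b 3 (2 * c3))) :=
        (add_assoc _ _ _).symm
    _ ≤ _ := by gcongr

theorem case_two (c : E3) (hn : ∀ i, 0 ≤ b.coord i c) (i j : Fin 4) (hij : i ≠ j)
    (h : b.coord i c + b.coord j c ≤ 1 / 3) : 2 * volume (DD b c) ≤ volume (T b) := by
  set ci := b.coord i c with hci
  set cj := b.coord j c with hcj
  have n0 := hn i
  have n1 := hn j
  rw [← hci] at n0
  rw [← hcj] at n1
  have hpp : pp (1 - 2 * ci - 2 * cj) = 1 - 2 * ci - 2 * cj := max_eq_right (by linarith)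
  have u0 := volume_A_ge b i (2 * ci) (by linarith) (by linarith)
  have u1 := volume_A_ge b j (2 * cj) (by linarith) (by linarith)
  have w := volume_AA_le b i j hij (2 * ci) (2 * cj)
  rw [hpp] at w
  have hD := DD_add b c (A b i (2 * ci) ∪ A b j (2 * cj))
    (union_subset (A_sub b _ _) (A_sub b _ _)) ((meas_A b _ _).union (meas_A b _ _)) (by
      rw [inter_union_distrib_left]
      exact measure_union_null (DD_inter_A b c i) (DD_inter_A b c j))
  have hun := measure_union_add_inter (μ := volume) (A b i (2 * ci)) (meas_A b j (2 * cj))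
  refine concl (volume_T_lt b) (P := (1 - 2 * ci - 2 * cj) ^ 3)
    (L := (1 - 2 * ci) ^ 3 + (1 - 2 * cj) ^ 3) (pow_nonneg (by linarith) 3) ?_ ?_
  · have h1 : (1 - 2 * ci) ^ 3 + (1 - 2 * cj) ^ 3 - (1 - 2 * ci - 2 * cj) ^ 3 =
        1 - 24 * (ci * cj) * (1 - ci - cj) := by ring
    have h2 : ci * cj ≤ (ci + cj) ^ 2 / 4 := by nlinarith [sq_nonneg (ci - cj)]
    have h3 : (ci + cj) ^ 2 / 4 * (1 - ci - cj) ≤ 1 / 54 := by
      have hσ : 0 ≤ ci + cj := by linarith
      generalize hg : ci + cj = σ at *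
      have e : 1 - ci - cj = 1 - σ := by linarith
      rw [e]
      nlinarith [mul_nonneg hσ hσ, mul_nonneg (mul_nonneg hσ hσ) (by linarith : 0 ≤ 1 / 3 - σ),
        mul_nonneg hσ (by linarith : 0 ≤ 1 / 3 - σ)]
    have h4 : ci * cj * (1 - ci - cj) ≤ (ci + cj) ^ 2 / 4 * (1 - ci - cj) :=
      mul_le_mul_of_nonneg_right h2 (by linarith)
    linarith
  · rw [ENNReal.ofReal_add (pow_nonneg (by linarith) 3) (pow_nonneg (by linarith) 3), add_mul]
    calc volume (DD b c) + (ENNReal.ofReal ((1 - 2 * ci) ^ 3) * volume (T b) +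
          ENNReal.ofReal ((1 - 2 * cj) ^ 3) * volume (T b))
        ≤ volume (DD b c) + (volume (A b i (2 * ci)) + volume (A b j (2 * cj))) := by gcongr
      _ = (volume (DD b c) + volume (A b i (2 * ci) ∪ A b j (2 * cj))) +
          volume (A b i (2 * ci) ∩ A b j (2 * cj)) := by rw [← hun, add_assoc]
      _ ≤ _ := by gcongr

theorem DD_le (c : E3) : 2 * volume (DD b c) ≤ volume (T b) := by
  by_cases hn : ∀ i, 0 ≤ b.coord i c
  · by_cases hh : ∀ i, b.coord i c ≤ 1 / 2
    · exact case_four b c hn hh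
    · push Not at hh
      obtain ⟨l, hl⟩ := hh
      have hsum := sum_coord b c
      have n0 := hn 0
      have n1 := hn 1
      have n2 := hn 2
      have n3 := hn 3
      by_contra hcon
      have key : ∀ i j : Fin 4, i ≠ j → 1 / 3 < b.coord i c + b.coord j c := by
        intro i j hij
        by_contra h
        push Not at h
        exact hcon (case_two b c hn i j hij h)
      have k01 := key 0 1 (by decide)
      have k02 := key 0 2 (by decide)
      have k03 := key 0 3 (by decide)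
      have k12 := key 1 2 (by decide)
      have k13 := key 1 3 (by decide)
      have k23 := key 2 3 (by decide)
      have hl' : l = 0 ∨ l = 1 ∨ l = 2 ∨ l = 3 := by
        fin_cases l
        · exact Or.inl rfl
        · exact Or.inr (Or.inl rfl)
        · exact Or.inr (Or.inr (Or.inl rfl))
        · exact Or.inr (Or.inr (Or.inr rfl))
      rcases hl' with rfl | rfl | rfl | rfl <;> linarith
  · push Not at hn
    obtain ⟨i, hi⟩ := hn
    have : DD b c = ∅ := by
      apply eq_empty_of_forall_notMem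
      rintro x ⟨hx, hx'⟩
      have h1 := hx i
      have h2 := hx' i
      linarith
    rw [this]
    simp

end

/-- Every centrally symmetric subset of a tetrahedron has at most half of its volume. -/
theorem tetrahedron (p : Fin 4 → E3) (hp : AffineIndependent ℝ p) (C : Set E3)
    (hC : C ⊆ convexHull ℝ (range p)) (hsym : ∃ c : E3, ∀ x ∈ C, (2 : ℝ) • c - x ∈ C) :
    2 * volume C ≤ volume (convexHull ℝ (range p)) := by
  have htop : affineSpan ℝ (range p) = ⊤ :=
    hp.affineSpan_eq_top_iff_card_eq_finrank_add_one.2 (by simp)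
  let b : AffineBasis (Fin 4) ℝ E3 := ⟨p, hp, htop⟩
  have hb : range b = range p := rfl
  obtain ⟨c, hc⟩ := hsym
  have hT := T_eq b
  rw [hb] at hT
  rw [← hT] at hC ⊢
  refine le_trans ?_ (DD_le b c)
  gcongr
  intro x hx
  refine ⟨hC hx, ?_⟩
  intro i
  have h1 : 0 ≤ b.coord i ((2 : ℝ) • c - x) := hC (hc x hx) i
  have h2 : (2 : ℝ) • c - x = (2 : ℝ) • c + ((-1 : ℝ) • x + (0 : ℝ) • x) := by
    rw [zero_smul, add_zero, neg_one_smul, sub_eq_add_neg]
  rw [h2, coord_comb b i 2 (-1) 0 c x x (by norm_num)] at h1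
  linarith

end Pool.OR.Tetra
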